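import Pool.Agent.Helper33.Schunck8

/-! Existence of projectors for Schunck classes of finite soluble groups (Gaschuetz). -/

set_option autoImplicit false

namespace Pool.Agent.Helper90.SCH

open scoped commutatorElement
open Function Subgroup Pool.Agent.Helper33.Schunck

variable {X : (G : Type) → [Group G] → Prop}

lemma trivial_mem (hX : IsSchunck X) (G : Type) [Group G] [Subsingleton G] : X G := by
  have : Finite G := inferInstance
  refine hX.prim G inferInstance (fun N _ h => ?_)
  obtain ⟨M, hM, _⟩ := h
  have hs : Subsingleton (G ⧸ N) := Quot.Subsingleton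
  exact absurd (Subsingleton.elim M ⊤) hM.1

/-- A projector of a projector of a quotient is a projector. -/
lemma tower (hX : IsSchunck X) {G R : Type} [Group G] [Group R] (g : G →* R) (hg : Surjective g)
    (P : Subgroup R) (hP : IsProj' X P) (M : Subgroup G) (hM : P.comap g = M) (E : Subgroup ↥M)
    (hE : IsProj' X E) : IsProj' X (E.map M.subtype) := by
  have hXE : X E := hE.self
  have hXP : X P := hP.self
  -- `E` maps onto `P`
  have hEP : (E.map M.subtype).map g = P := by
    subst hM
    have hs : Surjective (g.subgroupComap P) := MonoidHom.subgroupComap_surjective_of_surjective g P hg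
    have h1 : (⊤ : Subgroup P) = E.map (g.subgroupComap P) :=
      (hE P (g.subgroupComap P) hs).2 ⊤ le_top (hX.iso _ _ ⟨Subgroup.topEquiv.symm⟩ hXP)
    have h2 : (E.map (g.subgroupComap P)).map P.subtype =
        (E.map (P.comap g).subtype).map g := by
      rw [Subgroup.map_map, Subgroup.map_map]
      congr 1
    rw [← h2, ← h1, ← MonoidHom.range_eq_map, Subgroup.range_subtype]
  intro Q _ f hf
  refine ⟨?_, fun K hK hXK => ?_⟩
  · exact hX.of_surjective ((f.comp M.subtype).subgroupMap E)
      ((f.comp M.subtype).subgroupMap_surjective E) hXE |> fun h => by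
        rw [Subgroup.map_map]; exact h
  · have hNn : ((g.ker).map f).Normal := Subgroup.Normal.map inferInstance f hf
    set f' := QuotientGroup.mk' ((g.ker).map f) with hf'
    have hf's : Surjective f' := QuotientGroup.mk'_surjective _
    have hker : g.ker ≤ (f'.comp f).ker := by
      intro x hx
      rw [MonoidHom.mem_ker, MonoidHom.comp_apply, hf', QuotientGroup.mk'_apply,
        QuotientGroup.eq_one_iff]
      exact ⟨x, hx, rfl⟩
    set g' := g.liftOfSurjective hg ⟨f'.comp f, hker⟩ with hg'
    have hgg : ∀ x, g' (g x) = f' (f x) := fun x =>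
      MonoidHom.liftOfRightInverse_comp_apply g _ _ ⟨f'.comp f, hker⟩ x
    have hg's : Surjective g' := by
      intro c
      obtain ⟨y, rfl⟩ := hf's c
      obtain ⟨x, rfl⟩ := hf y
      exact ⟨g x, hgg x⟩
    have hcomp : ∀ S : Subgroup G, (S.map g).map g' = (S.map f).map f' := by
      intro S
      rw [Subgroup.map_map, Subgroup.map_map]
      congr 1
      ext x
      exact hgg x
    have h1 : K.map f' = P.map g' := by
      refine (hP _ g' hg's).2 (K.map f') ?_ ?_
      · rw [← hEP, hcomp]
        exact Subgroup.map_mono hK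
      · exact hX.of_surjective (f'.subgroupMap K) (f'.subgroupMap_surjective K) hXK
    have h2 : K ≤ M.map f := by
      intro u hu
      have h3 : f' u ∈ P.map g' := h1 ▸ ⟨u, hu, rfl⟩
      obtain ⟨p, hp, hpu⟩ := h3
      obtain ⟨m, rfl⟩ := hg p
      rw [hgg] at hpu
      rw [hf', QuotientGroup.mk'_apply, QuotientGroup.mk'_apply, QuotientGroup.eq] at hpu
      obtain ⟨k, hk, hku⟩ := hpu
      refine ⟨m * k, M.mul_mem (by rw [← hM]; exact hp) ?_, ?_⟩
      · rw [← hM, Subgroup.mem_comap, MonoidHom.mem_ker.1 hk]
        exact P.one_mem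
      · rw [map_mul, hku, mul_inv_cancel_left]
    have h3 : E.map (f.subgroupMap M) ≤ K.subgroupOf (M.map f) := by
      rintro _ ⟨e, he, rfl⟩
      rw [Subgroup.mem_subgroupOf]
      exact hK ⟨(e : G), ⟨e, he, rfl⟩, rfl⟩
    have h4 : K.subgroupOf (M.map f) = E.map (f.subgroupMap M) :=
      (hE _ (f.subgroupMap M) (f.subgroupMap_surjective M)).2 _ h3
        (hX.iso _ _ ⟨(Subgroup.subgroupOfEquivOfLe h2).symm⟩ hXK)
    have h5 : (K.subgroupOf (M.map f)).map (M.map f).subtype = K := by
      rw [Subgroup.subgroupOf_map_subtype, inf_eq_left.2 h2]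
    have h6 : (E.map (f.subgroupMap M)).map (M.map f).subtype = (E.map M.subtype).map f := by
      rw [Subgroup.map_map, Subgroup.map_map]
      congr 1
    rw [← h5, h4, h6]

/-- Nontrivial soluble groups have a nontrivial abelian normal subgroup. -/
lemma exists_abelian_normal (G : Type) [Group G] [Nontrivial G] (hs : Group.IsSolvable G) :
    ∃ A : Subgroup G, A.Normal ∧ A ≠ ⊥ ∧ ∀ a ∈ A, ∀ b ∈ A, a * b = b * a := by
  classical
  have hex : ∃ n, derivedSeries G n = ⊥ := (Group.isSolvable_def G).1 hs
  set n := Nat.find hex with hn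
  have hn1 : derivedSeries G n = ⊥ := Nat.find_spec hex
  have hn0 : n ≠ 0 := by
    intro h0
    rw [h0, derivedSeries_zero] at hn1
    exact bot_ne_top hn1.symm
  obtain ⟨k, hk⟩ := Nat.exists_eq_succ_of_ne_zero hn0
  refine ⟨derivedSeries G k, derivedSeries_normal G k, ?_, ?_⟩
  · exact Nat.find_min hex (by omega)
  · intro a ha b hb
    have h1 : ⁅a, b⁆ ∈ derivedSeries G (k + 1) := by
      rw [derivedSeries_succ]
      exact Subgroup.commutator_mem_commutator ha hb
    rw [show k + 1 = n from hk.symm, hn1, Subgroup.mem_bot] at h1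
    exact commutatorElement_eq_one_iff_mul_comm.1 h1

theorem exists_proj (hX : IsSchunck X) (n : ℕ) : ∀ (G : Type) [Group G] [Finite G],
    Nat.card G ≤ n → Group.IsSolvable G → ∃ E : Subgroup G, IsProj' X E := by
  induction n with
  | zero =>
    intro G _ _ h
    exact absurd h (by have := Nat.card_pos (α := G); omega)
  | succ n ih =>
    intro G _ _ hcard hs
    by_cases hXG : X G
    · refine ⟨⊤, fun Q _ f hf => ?_⟩
      rw [Subgroup.map_top_of_surjective f hf]
      exact ⟨hX.iso _ _ ⟨Subgroup.topEquiv.symm⟩ (hX.of_surjective f hf hXG),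
        fun K hK _ => top_le_iff.1 hK⟩
    have hnt : Nontrivial G := by
      by_contra h
      rw [not_nontrivial_iff_subsingleton] at h
      exact hXG (trivial_mem hX G)
    by_cases hN : ∃ N : Subgroup G, ∃ _ : N.Normal, N ≠ ⊥ ∧ ¬ X (G ⧸ N)
    · obtain ⟨N, hNn, hNb, hNX⟩ := hN
      have hcQ : Nat.card (G ⧸ N) ≤ n := by
        have e1 : Nat.card N * N.index = Nat.card G := card_mul_index N
        have e2 : 1 < Nat.card N := (Subgroup.one_lt_card_iff_ne_bot N).2 hNb
        have e3 : 0 < N.index := Nat.pos_of_ne_zero index_ne_zero_of_finite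
        have e4 : Nat.card (G ⧸ N) = N.index := rfl
        rw [e4]; nlinarith
      obtain ⟨P, hP⟩ := ih (G ⧸ N) hcQ inferInstance
      have hPt : P ≠ ⊤ := by
        rintro rfl
        exact hNX (hX.iso _ _ ⟨Subgroup.topEquiv⟩ hP.self)
      set M := P.comap (QuotientGroup.mk' N) with hM
      have hMt : M ≠ ⊤ := by
        intro h
        apply hPt
        rw [← Subgroup.map_comap_eq_self_of_surjective (QuotientGroup.mk'_surjective N) P, ← hM, h,
          Subgroup.map_top_of_surjective _ (QuotientGroup.mk'_surjective N)]
      have hcM : Nat.card M ≤ n := by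
        have e1 : Nat.card M * M.index = Nat.card G := card_mul_index M
        have e2 : M.index ≠ 1 := fun h => hMt (Subgroup.index_eq_one.1 h)
        have e3 : 0 < M.index := Nat.pos_of_ne_zero index_ne_zero_of_finite
        have e4 : 0 < Nat.card M := Nat.card_pos
        have e5 : 2 ≤ M.index := by omega
        nlinarith
      obtain ⟨E, hE⟩ := ih M hcM inferInstance
      exact ⟨_, tower hX _ (QuotientGroup.mk'_surjective N) P hP M rfl E hE⟩
    · push Not at hN
      -- `G` is primitive
      obtain ⟨M, hMc, hMcore⟩ : ∃ M : Subgroup G, IsCoatom M ∧ M.normalCore = ⊥ := by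
        by_contra hno
        apply hXG
        refine hX.prim G hs (fun N hNn hp => ?_)
        by_cases hNb : N = ⊥
        · exfalso
          apply hno
          subst hNb
          obtain ⟨M, hM, hMc⟩ := hp
          let e : G ≃* G ⧸ (⊥ : Subgroup G) := (QuotientGroup.quotientBot (G := G)).symm
          exact ⟨_, prim_transport e M hM hMc⟩
        · exact hN N hNn hNb
      obtain ⟨A, hAn, hAb, hAc⟩ := exists_abelian_normal G hs
      have hnle : ∀ L : Subgroup G, L.Normal → L ≠ ⊥ → M ⊔ L = ⊤ := by
        intro L hL hLb
        rcases hMc.le_iff.1 (le_sup_left : M ≤ M ⊔ L) with h | h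
        · exact h
        · exfalso
          apply hLb
          have h1 : L ≤ M := by rw [← h]; exact le_sup_right
          rw [← le_bot_iff, ← hMcore]
          exact Subgroup.normal_le_normalCore.2 h1
      have hMA : M ⊓ A = ⊥ := by
        have h1 : (M ⊓ A).Normal := by
          rw [← Subgroup.normalizer_eq_top_iff, ← top_le_iff, ← hnle A hAn hAb, sup_le_iff]
          constructor
          · intro m hm
            rw [Subgroup.mem_normalizer_iff]
            intro x
            constructor
            · rintro ⟨h1, h2⟩
              exact ⟨M.mul_mem (M.mul_mem hm h1) (M.inv_mem hm), hAn.conj_mem x h2 m⟩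
            · rintro ⟨h1, h2⟩
              have h3 := M.mul_mem (M.mul_mem (M.inv_mem hm) h1) hm
              have h4 := hAn.conj_mem _ h2 m⁻¹
              have h5 : m⁻¹ * (m * x * m⁻¹) * m = x := by group
              have h6 : m⁻¹ * (m * x * m⁻¹) * m⁻¹⁻¹ = x := by group
              rw [h5] at h3
              rw [h6] at h4
              exact ⟨h3, h4⟩
          · intro a ha
            rw [Subgroup.mem_normalizer_iff]
            intro x
            constructor
            · rintro ⟨h1, h2⟩
              have h3 : a * x * a⁻¹ = x := by rw [hAc a ha x h2, mul_inv_cancel_right]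
              rw [h3]
              exact ⟨h1, h2⟩
            · rintro ⟨h1, h2⟩
              have h3 : x ∈ A := by
                have h4 := hAn.conj_mem _ h2 a⁻¹
                have h6 : a⁻¹ * (a * x * a⁻¹) * a⁻¹⁻¹ = x := by group
                rwa [h6] at h4
              have h3' : a * x * a⁻¹ = x := by rw [hAc a ha x h3, mul_inv_cancel_right]
              rw [h3'] at h1
              exact ⟨h1, h3⟩
        rw [← le_bot_iff, ← hMcore]
        exact Subgroup.normal_le_normalCore.2 inf_le_left
      have hXM : X M := by
        have hbij : Bijective ((QuotientGroup.mk' A).comp M.subtype) := by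
          constructor
          · rw [injective_iff_map_eq_one]
            intro x hx
            rw [MonoidHom.comp_apply, QuotientGroup.mk'_apply, QuotientGroup.eq_one_iff] at hx
            have h1 : (x : G) ∈ M ⊓ A := ⟨x.2, hx⟩
            rw [hMA, Subgroup.mem_bot] at h1
            exact Subtype.ext h1
          · intro c
            obtain ⟨y, rfl⟩ := QuotientGroup.mk'_surjective A c
            have h1 : y ∈ ((M ⊔ A : Subgroup G) : Set G) := by rw [hnle A hAn hAb]; trivial
            rw [Subgroup.mul_normal] at h1
            obtain ⟨m, hm, a, ha, rfl⟩ := h1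
            refine ⟨⟨m, hm⟩, ?_⟩
            rw [MonoidHom.comp_apply, QuotientGroup.mk'_apply, QuotientGroup.mk'_apply,
              QuotientGroup.eq]
            change m⁻¹ * (m * a) ∈ A
            rw [inv_mul_cancel_left]
            exact ha
        exact hX.iso _ _ ⟨(MulEquiv.ofBijective _ hbij).symm⟩ (hN A hAn hAb)
      refine ⟨M, fun Q _ f hf => ?_⟩
      by_cases hk : f.ker = ⊥
      · have hinj : Injective f := (MonoidHom.ker_eq_bot_iff f).1 hk
        refine ⟨hX.of_surjective (f.subgroupMap M) (f.subgroupMap_surjective M) hXM,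
          fun K hK hXK => ?_⟩
        have h1 : M ≤ K.comap f := Subgroup.map_le_iff_le_comap.1 hK
        rcases hMc.le_iff.1 h1 with h | h
        · exfalso
          apply hXG
          have h2 : K = ⊤ := by
            rw [← Subgroup.map_comap_eq_self_of_surjective hf K, h,
              Subgroup.map_top_of_surjective f hf]
          subst h2
          have h3 : X Q := hX.iso _ _ ⟨Subgroup.topEquiv⟩ hXK
          exact hX.iso _ _ ⟨(MulEquiv.ofBijective f ⟨hinj, hf⟩).symm⟩ h3
        · rw [← Subgroup.map_comap_eq_self_of_surjective hf K, h]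
      · have h1 : M.map f = ⊤ := by
          have h2 := congrArg (Subgroup.map f) (hnle f.ker inferInstance hk)
          rw [Subgroup.map_sup, Subgroup.map_top_of_surjective f hf,
            (Subgroup.map_eq_bot_iff f.ker).2 le_rfl, sup_bot_eq] at h2
          exact h2
        rw [h1]
        refine ⟨hX.iso _ _ ⟨Subgroup.topEquiv.symm⟩ ?_, fun K hK _ => top_le_iff.1 hK⟩
        exact hX.iso _ _ ⟨QuotientGroup.quotientKerEquivOfSurjective f hf⟩
          (hN f.ker inferInstance hk)

end Pool.Agent.Helper90.SCH
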