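import Pool.Agent.Helper90.SCH.Proj

/-! The Schunck classes below the class of groups with a Sylow tower. -/

set_option autoImplicit false

namespace Pool.Agent.Helper90.SCH

open Function Subgroup Pool.Agent.Helper33.Schunck

/-- Groups with a Sylow tower all of whose prime divisors are at least `m`. -/
def Tg (m : ℕ) (G : Type) [Group G] : Prop := T G ∧ Big m (Nat.card G)

lemma isSchunck_Tg (m : ℕ) : IsSchunck (Tg m) := by
  refine ⟨fun G _ h => ⟨h.1.1, h.1.2.1⟩, ?_, ?_, ?_⟩
  · rintro G H _ _ ⟨e⟩ ⟨h1, h2⟩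
    exact ⟨isSchunck_T.iso _ _ ⟨e⟩ h1, by rwa [← Nat.card_congr e.toEquiv]⟩
  · rintro G _ N _ ⟨h1, h2⟩
    have := h1.1
    exact ⟨isSchunck_T.quot G N h1,
      h2.dvd (card_dvd_of_surjective _ (QuotientGroup.mk'_surjective N))⟩
  · intro G _ _ hs hprim
    have hT : T G := isSchunck_T.prim G hs (fun N _ h => (hprim N h).1)
    refine ⟨hT, ?_⟩
    intro r hr hrG
    by_contra hlt
    push Not at hlt
    obtain ⟨S, hS⟩ := hT.2.2 m
    have hSn := hS.normal
    have h1 : r ∣ Nat.card S * S.index := by rw [card_mul_index]; exact hrG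
    have h2 : r ∣ S.index := by
      rcases hr.dvd_mul.1 h1 with h | h
      · exact absurd (hS.big r hr h) (by omega)
      · exact h
    have hnt : Nontrivial (G ⧸ S) := by
      rw [← Finite.one_lt_card_iff_nontrivial]
      have h3 : Nat.card (G ⧸ S) = S.index := rfl
      rw [h3]
      exact lt_of_lt_of_le hr.one_lt
        (Nat.le_of_dvd (Nat.pos_of_ne_zero index_ne_zero_of_finite) h2)
    obtain ⟨N, hN, hNp, hNc⟩ := exists_prime_quotient (G ⧸ S) inferInstance
    -- pull back to a normal subgroup of G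
    let N' : Subgroup G := N.comap (QuotientGroup.mk' S)
    have hN'n : N'.Normal := Subgroup.Normal.comap hN _
    have hN'i : N'.index = N.index :=
      index_comap_of_surjective _ (QuotientGroup.mk'_surjective S)
    have hbot : IsCoatom (⊥ : Subgroup (G ⧸ N')) := by
      have hc : Nat.card (G ⧸ N') = N.index := hN'i
      have hp : Fact (N.index).Prime := ⟨hNp⟩
      have hntr : Nontrivial (G ⧸ N') := by
        rw [← Finite.one_lt_card_iff_nontrivial, hc]; exact hNp.one_lt
      refine ⟨bot_ne_top, fun K hK => ?_⟩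
      have hKd : Nat.card K ∣ N.index := by rw [← hc]; exact card_subgroup_dvd_card K
      rcases (Nat.dvd_prime hNp).1 hKd with h | h
      · exact absurd (Subgroup.card_eq_one.1 h) hK.ne'
      · exact Subgroup.eq_top_of_card_eq K (by rw [h, hc])
    have h6 := (hprim N' ⟨⊥, hbot, le_bot_iff.1 (normalCore_le _)⟩).2
    have h7 : m ≤ N.index := h6 N.index hNp (by
      have : Nat.card (G ⧸ N') = N.index := hN'i
      rw [this])
    have h8 : N.index < m := hS.small _ hNp (by
      have : Nat.card (G ⧸ S) = S.index := rfl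
      rw [← this]; exact index_dvd_card N)
    omega

/-- The projectors of `Tg m` are the normal Hall subgroups of the projectors of `T`. -/
lemma proj_hall (m : ℕ) {G : Type} [Group G] [Finite G] (hs : Group.IsSolvable G) {F : Subgroup G}
    (hF : IsProj' T F) {S : Subgroup F} (hS : Hall m S) : IsProj' (Tg m) (S.map F.subtype) := by
  intro Q _ f hf
  have hfinQ : Finite Q := Finite.of_surjective f hf
  have hsQ : Group.IsSolvable Q := Group.isSolvable_of_surjective hf
  have hT1 : T ↥(S.map F.subtype) := by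
    have hle' : S.map F.subtype ≤ F := by
      rintro _ ⟨x, _, rfl⟩; exact x.2
    exact hF.self.of_injective (inclusion hle') (inclusion_injective _)
  refine ⟨⟨hT1.of_surjective _ (f.subgroupMap_surjective _), ?_⟩, ?_⟩
  · exact (hS.big.dvd (card_map_dvd S F.subtype)).dvd (card_map_dvd _ f)
  · rintro K hK ⟨hKT, hKb⟩
    have hmapmap : (S.map (f.subgroupMap F)).map (F.map f).subtype =
        (S.map F.subtype).map f := by
      rw [Subgroup.map_map, Subgroup.map_map]
      congr 1
    have := step4 m (Nat.card Q) Q le_rfl hsQ (F.map f) (hF.map f hf)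
      (S.map (f.subgroupMap F)) (hS.map _ (f.subgroupMap_surjective F)) K
      (by rw [hmapmap]; exact hK) hKT hKb
    rw [this, hmapmap]

lemma le_Tg {q m : ℕ} (h : q ≤ m) : Le (Tg m) (Tg q) := by
  intro G _ _ hs
  obtain ⟨F, hF⟩ := exists_proj isSchunck_T (Nat.card G) G le_rfl hs
  obtain ⟨S, hS⟩ := hF.self.2.2 m
  obtain ⟨Sq, hSq⟩ := hF.self.2.2 q
  exact ⟨S.map F.subtype, Sq.map F.subtype, (proj_hall m hs hF hS).toProj,
    (proj_hall q hs hF hSq).toProj, Subgroup.map_mono (hSq.le (hS.big.mono h))⟩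

/-- Strong containment implies inclusion. -/
lemma sub_of_le {A B : (G : Type) → [Group G] → Prop} (hA : IsSchunck A) (hB : IsSchunck B)
    (hle : Le A B) {G : Type} [Group G] (h : A G) : B G := by
  obtain ⟨hfin, hs⟩ := hA.fs G h
  obtain ⟨E, F, hE, hF, hEF⟩ := hle G hs
  replace hE := hE.toProj' hA.iso
  replace hF := hF.toProj' hB.iso
  have h1 : ⊤ = E := hE.max ⊤ le_top (hA.iso _ _ ⟨Subgroup.topEquiv.symm⟩ h)
  have h2 : F = ⊤ := by rw [eq_top_iff, h1]; exact hEF
  have h3 := hF.self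
  rw [h2] at h3
  exact hB.iso _ _ ⟨Subgroup.topEquiv⟩ h3

lemma Tg_zmod {p : ℕ} (hp : p.Prime) {m : ℕ} : Tg m (Multiplicative (ZMod p)) ↔ m ≤ p := by
  have : Fact p.Prime := ⟨hp⟩
  have hc : Nat.card (Multiplicative (ZMod p)) = p := by simp
  constructor
  · intro h
    exact h.2 p hp (by rw [hc])
  · intro h
    refine ⟨T.of_pGroup hp (IsPGroup.of_card (n := 1) (by rw [hc, pow_one])), ?_⟩
    rw [hc]
    have := big_prime_pow (k := 1) hp h
    rwa [pow_one] at this

/-- The trivial class is strongly contained in every Schunck class. -/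
lemma le_of_trivial {A B : (G : Type) → [Group G] → Prop} (hA : IsSchunck A) (hB : IsSchunck B)
    (h : ∀ (G : Type) [Group G], A G → Subsingleton G) : Le A B := by
  intro G _ _ hs
  obtain ⟨F, hF⟩ := exists_proj hB (Nat.card G) G le_rfl hs
  refine ⟨⊥, F, ?_, hF.toProj, bot_le⟩
  intro N _
  rw [Subgroup.map_bot]
  have hsb : Subsingleton ↥(⊥ : Subgroup (G ⧸ N)) := ⟨fun a b =>
    Subtype.ext ((Subgroup.mem_bot.1 a.2).trans (Subgroup.mem_bot.1 b.2).symm)⟩
  refine ⟨@trivial_mem A hA _ _ hsb, fun K _ hK => ?_⟩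
  have := h _ hK
  exact (Subgroup.eq_bot_iff_forall K).2 fun x hx =>
    congrArg Subtype.val (Subsingleton.elim (⟨x, hx⟩ : K) 1)

/-- Every Schunck class strongly contained in `T` is trivial or one of the classes `Tg q`. -/
theorem classify {A : (G : Type) → [Group G] → Prop} (hA : IsSchunck A)
    (hAnt : ∃ (G : Type) (_ : Group G), A G ∧ Nontrivial G) (hle : Le A T) :
    ∃ q : ℕ, q.Prime ∧ ∀ (G : Type) [Group G], A G ↔ Tg q G := by
  classical
  have hprime : ∀ (G : Type) [Group G], A G → Nontrivial G → ∃ r : ℕ, r.Prime ∧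
      r ∣ Nat.card G ∧ A (Multiplicative (ZMod r)) := by
    intro G _ hG hnt
    obtain ⟨hfin, hs⟩ := hA.fs G hG
    obtain ⟨N, hN, hNp, _⟩ := exists_prime_quotient G hs
    refine ⟨N.index, hNp, index_dvd_card N, ?_⟩
    exact hA.zmod_of_card_prime hNp (Y := G ⧸ N) rfl (hA.quot G N hG)
  have hex : ∃ q : ℕ, q.Prime ∧ A (Multiplicative (ZMod q)) := by
    obtain ⟨G, _, hG, hnt⟩ := hAnt
    obtain ⟨r, hr, _, hC⟩ := hprime G hG hnt
    exact ⟨r, hr, hC⟩
  set q := Nat.find hex with hqdef
  obtain ⟨hq, hC⟩ : q.Prime ∧ A (Multiplicative (ZMod q)) := Nat.find_spec hex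
  have hqmin : ∀ r : ℕ, r.Prime → A (Multiplicative (ZMod r)) → q ≤ r :=
    fun r hr hrA => Nat.find_min' hex ⟨hr, hrA⟩
  have hbigA : ∀ (G : Type) [Group G], A G → Big q (Nat.card G) := by
    intro G _ hG r hr hrG
    by_contra hlt
    push Not at hlt
    have hT : T G := le_sub hA hle hG
    have hfin : Finite G := hT.1
    obtain ⟨S, hS⟩ := hT.2.2 q
    have hSn := hS.normal
    have h1 : r ∣ Nat.card S * S.index := by rw [card_mul_index]; exact hrG
    have h2 : r ∣ S.index := by
      rcases hr.dvd_mul.1 h1 with h | h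
      · exact absurd (hS.big r hr h) (by omega)
      · exact h
    have hnt : Nontrivial (G ⧸ S) := by
      rw [← Finite.one_lt_card_iff_nontrivial]
      have h3 : Nat.card (G ⧸ S) = S.index := rfl
      rw [h3]
      exact lt_of_lt_of_le hr.one_lt (Nat.le_of_dvd (Nat.pos_of_ne_zero index_ne_zero_of_finite) h2)
    obtain ⟨r', hr', hr'S, hr'A⟩ := hprime (G ⧸ S) (hA.quot G S hG) hnt
    have h4 := hS.small r' hr' hr'S
    have h5 := hqmin r' hr' hr'A
    omega
  have hAT : ∀ (G : Type) [Group G], T G → Big q (Nat.card G) → A G :=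
    fun G _ hT hb => step3 hA hle hq hC (Nat.card G) G le_rfl hT hb
  exact ⟨q, hq, fun G _ => ⟨fun h => ⟨le_sub hA hle h, hbigA G h⟩, fun h => hAT G h.1 h.2⟩⟩

lemma Tg_two {G : Type} [Group G] : Tg 2 G ↔ T G :=
  ⟨fun h => h.1, fun h => ⟨h, fun _ hp _ => hp.two_le⟩⟩

lemma Le.congr {A A' B B' : (G : Type) → [Group G] → Prop}
    (hA : ∀ (G : Type) [Group G], A G ↔ A' G) (hB : ∀ (G : Type) [Group G], B G ↔ B' G)
    (h : Le A B) : Le A' B' := by
  intro G _ _ hs
  obtain ⟨E, F, hE, hF, hEF⟩ := h G hs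
  refine ⟨E, F, fun N _ => ⟨(hA _).1 (hE N).1, fun K hK hAK => (hE N).2 K hK ((hA _).2 hAK)⟩,
    fun N _ => ⟨(hB _).1 (hF N).1, fun K hK hAK => (hF N).2 K hK ((hB _).2 hAK)⟩, hEF⟩

end Pool.Agent.Helper90.SCH
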